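import Pool.Agent.V11238.MG.JI

/-!
# Residually finite `p`-groups whose subgroups are finite or of finite index
-/

set_option autoImplicit false

open Subgroup Pool.Agent.V11238.MG

namespace Pool.Agent.Results.MP_725c80_al.HereditarilyJustInfinite

/-- `G` is an example for Q1 with the prime `p`. -/
def Example (p : ℕ) (G : Type) [Group G] : Prop :=
  Infinite G ∧ Group.FG G ∧
    (∀ g : G, g ≠ 1 → ∃ N : Subgroup G, N.Normal ∧ N.FiniteIndex ∧ g ∉ N) ∧
    IsPGroup p G ∧ ∀ H : Subgroup G, Finite H ∨ H.FiniteIndex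

/-- Every nontrivial normal subgroup of every subgroup of finite index has finite index. -/
def HJI (G : Type) [Group G] : Prop :=
  ∀ H : Subgroup G, H.FiniteIndex → ∀ L : Subgroup H, L.Normal → L ≠ ⊥ → L.FiniteIndex

/-- Every example has a finite normal subgroup whose quotient is a hereditarily just infinite
example. -/
theorem result (p : ℕ) (hp : p.Prime) (G : Type) [Group G] (h : Example p G) :
    ∃ (M : Subgroup G) (_ : M.Normal), Finite M ∧ Example p (G ⧸ M) ∧ HJI (G ⧸ M) := by
  obtain ⟨hinf, hfg, hrf, hpg, hF⟩ := h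
  have hfin : Finite (fcore G) := fcore_finite hF
  have hinfQ : Infinite (G ⧸ fcore G) := infinite_quot_finite (fcore G)
  have hpQ : IsPGroup p (G ⧸ fcore G) := hpg.to_quotient (fcore G)
  have hFQ := quot_dichotomy hF (fcore G)
  have htQ : ∀ g : G ⧸ fcore G, IsOfFinOrder g := by
    intro g
    obtain ⟨k, hk⟩ := hpQ g
    exact isOfFinOrder_iff_pow_eq_one.2 ⟨p ^ k, pow_pos hp.pos k, hk⟩
  exact ⟨fcore G, inferInstance, hfin,
    ⟨hinfQ, inferInstance, RF.quot hrf (fcore G), hpQ, hFQ⟩,
    fun H hH L hL hne => hji htQ hFQ (quot_core_trivial hF) H L hL hne⟩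

end Pool.Agent.Results.MP_725c80_al.HereditarilyJustInfinite
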